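import Mathlib
import Pool.Agent.H3.Lib.DivBound
import Pool.Agent.H3.TK.Main

set_option autoImplicit false

namespace Pool.H3.ProdSum

open Finset

/-- The sum of `x - 1` over the multiset. -/
def T (M : Multiset ℕ) : ℕ := (M.map (fun x => x - 1)).sum

lemma T_cons (a : ℕ) (M : Multiset ℕ) : T (a ::ₘ M) = (a - 1) + T M := by
  simp [T]

lemma T_le (M : Multiset ℕ) : (∀ x ∈ M, 1 ≤ x) → T M + 1 ≤ M.prod := by
  induction M using Multiset.induction with
  | empty => intro _; simp [T]
  | cons a M ih =>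
    intro h
    have h1 := ih (fun x hx => h x (Multiset.mem_cons_of_mem hx))
    have h2 := h a (Multiset.mem_cons_self a M)
    rw [T_cons, Multiset.prod_cons]
    obtain ⟨b, rfl⟩ : ∃ b, a = b + 1 := ⟨a - 1, by omega⟩
    simp only [Nat.add_sub_cancel]
    nlinarith

lemma T_filter (r : Multiset ℕ) : T (r.filter (2 ≤ ·)) = T r := by
  induction r using Multiset.induction with
  | empty => simp
  | cons a M ih =>
    by_cases h : 2 ≤ a
    · rw [Multiset.filter_cons_of_pos _ h, T_cons, T_cons, ih]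
    · rw [Multiset.filter_cons_of_neg _ h, T_cons, ih]; omega

lemma prod_filter (r : Multiset ℕ) (hr : ∀ x ∈ r, 0 < x) :
    (r.filter (2 ≤ ·)).prod = r.prod := by
  induction r using Multiset.induction with
  | empty => simp
  | cons a M ih =>
    have h1 := ih (fun x hx => hr x (Multiset.mem_cons_of_mem hx))
    have h2 := hr a (Multiset.mem_cons_self a M)
    by_cases h : 2 ≤ a
    · rw [Multiset.filter_cons_of_pos _ h, Multiset.prod_cons, Multiset.prod_cons, h1]
    · rw [Multiset.filter_cons_of_neg _ h, Multiset.prod_cons, h1]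
      have : a = 1 := by omega
      rw [this, one_mul]

lemma eq_filter_add (r : Multiset ℕ) (hr : ∀ x ∈ r, 0 < x) :
    r = r.filter (2 ≤ ·) + Multiset.replicate (r.card - (r.filter (2 ≤ ·)).card) 1 := by
  have h := Multiset.filter_add_not (fun x => 2 ≤ x) r
  have h2 : r.filter (fun x => ¬ 2 ≤ x) = Multiset.replicate (r.filter (fun x => ¬ 2 ≤ x)).card 1 := by
    rw [Multiset.eq_replicate_card]
    intro b hb
    obtain ⟨hb1, hb2⟩ := Multiset.mem_filter.mp hb
    have := hr b hb1
    omega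
  have h3 : r.card - (r.filter (2 ≤ ·)).card = (r.filter (fun x => ¬ 2 ≤ x)).card := by
    have hc := congrArg Multiset.card h
    rw [Multiset.card_add] at hc
    omega
  rw [h3, ← h2, h]

lemma sum_eq (r : Multiset ℕ) (hr : ∀ x ∈ r, 0 < x) : r.sum = T r + r.card := by
  induction r using Multiset.induction with
  | empty => simp [T]
  | cons a M ih =>
    have h1 := ih (fun x hx => hr x (Multiset.mem_cons_of_mem hx))
    have h2 := hr a (Multiset.mem_cons_self a M)
    rw [Multiset.sum_cons, T_cons, Multiset.card_cons, h1]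
    omega

/-- the relation between the prime `p` and the reduced multiset. -/
structure R (p : ℕ) (M : Multiset ℕ) : Prop where
  two_le : ∀ x ∈ M, 2 ≤ x
  lt_prod : p < M.prod
  prod_lt : M.prod < 4 * p
  dvd : M.prod - p ∣ M.prod + T M - 1

def Psi (p : ℕ) (M : Multiset ℕ) : Multiset ℕ :=
  (p * ((T M + p - 1) / (M.prod - p))) ::ₘ (M + Multiset.replicate (p - 1 - M.card) 1)

/-- solutions -/
def Sol (n : ℕ) : Set (Multiset ℕ) :=
  {s : Multiset ℕ | Multiset.card s = n ∧ (∀ x ∈ s, 0 < x) ∧ s.prod = n * s.sum}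

lemma prod_lt_aux (M : Multiset ℕ) (hM : ∀ x ∈ M, 2 ≤ x) (p z : ℕ) (hp : 2 ≤ p)
    (hlt : p < M.prod) (hz : z * (M.prod - p) = T M + p - 1) : M.prod < 4 * p := by
  have hz0 : 1 ≤ z := by
    rcases Nat.eq_zero_or_pos z with h | h
    · subst h; rw [zero_mul] at hz; omega
    · exact h
  have hDle : M.prod - p ≤ T M + p - 1 := by
    rw [← hz]; exact Nat.le_mul_of_pos_left _ hz0
  induction M using Multiset.induction with
  | empty => simp at hlt; omega
  | cons a M _ =>
    have ha := hM a (Multiset.mem_cons_self a M)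
    rcases Multiset.empty_or_exists_mem M with h0 | ⟨b, hb⟩
    · subst h0
      have hT : T (a ::ₘ 0) = a - 1 := by simp [T]
      have hP : (a ::ₘ 0 : Multiset ℕ).prod = a := by simp
      rw [hT, hP] at hz
      rw [hP] at hlt ⊢
      obtain ⟨D, rfl⟩ : ∃ D, a = p + D := ⟨a - p, by omega⟩
      have h1 : z * D = D + (2 * p - 2) := by
        rw [show p + D - p = D by omega] at hz; omega
      have hz2 : 2 ≤ z := by
        by_contra hcon
        have : z = 1 := by omega
        subst this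
        omega
      have : 2 * D ≤ z * D := Nat.mul_le_mul_right _ hz2
      omega
    · obtain ⟨M', rfl⟩ := Multiset.exists_cons_of_mem hb
      have hT1 := T_le (b ::ₘ M') (fun x hx => by
        have := hM x (Multiset.mem_cons_of_mem hx); omega)
      have hb2 : 2 ≤ b := hM b (Multiset.mem_cons_of_mem hb)
      have hprod2 : 2 ≤ (b ::ₘ M').prod := by
        have hTb : T (b ::ₘ M') = (b - 1) + T M' := T_cons b M'
        omega
      rw [T_cons, Multiset.prod_cons] at hDle
      rw [Multiset.prod_cons] at hlt ⊢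
      set Q := (b ::ₘ M').prod
      set t := T (b ::ₘ M')
      have h2 : 2 * ((a - 1) + t) ≤ a * Q := by
        obtain ⟨a', rfl⟩ : ∃ a', a = a' + 2 := ⟨a - 2, by omega⟩
        obtain ⟨q', hq'⟩ : ∃ q', Q = q' + 2 := ⟨Q - 2, by omega⟩
        rw [hq']
        have : t ≤ q' + 1 := by omega
        have e : a' + 2 - 1 = a' + 1 := by omega
        rw [e]
        nlinarith [Nat.zero_le (a' * q')]
      omega

lemma sol_spec (p : ℕ) (hp : p.Prime) (s : Multiset ℕ) (hs : s ∈ Sol p) :
    ∃ M, R p M ∧ s = Psi p M := by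
  obtain ⟨hcard, hpos, hprod⟩ := hs
  have hdvd : p ∣ s.prod := by rw [hprod]; exact dvd_mul_right _ _
  obtain ⟨y, hy, hpy⟩ := (hp.prime.exists_mem_multiset_dvd) hdvd
  obtain ⟨r, rfl⟩ := Multiset.exists_cons_of_mem hy
  obtain ⟨z, rfl⟩ := hpy
  have hrpos : ∀ x ∈ r, 0 < x := fun x hx => hpos x (Multiset.mem_cons_of_mem hx)
  have hyp : 0 < p * z := hpos _ hy
  have hz0 : 0 < z := by
    rcases Nat.eq_zero_or_pos z with h0 | h0
    · subst h0; simp at hyp
    · exact h0
  rw [Multiset.card_cons] at hcard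
  have hrc : r.card = p - 1 := by omega
  set M := r.filter (2 ≤ ·) with hM
  have hMprod : M.prod = r.prod := prod_filter r hrpos
  have hMT : T M = T r := T_filter r
  have hp2 := hp.two_le
  have hsum : r.sum = T M + (p - 1) := by rw [sum_eq r hrpos, hMT, hrc]
  rw [Multiset.prod_cons, Multiset.sum_cons, hsum, ← hMprod] at hprod
  have heq : z * M.prod = p * z + (T M + (p - 1)) := by
    have : p * (z * M.prod) = p * (p * z + (T M + (p - 1))) := by rw [← hprod]; ring
    exact Nat.eq_of_mul_eq_mul_left hp.pos this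
  have hlt : p < M.prod := by
    by_contra hcon
    have h1 : z * M.prod ≤ z * p := Nat.mul_le_mul_left z (not_lt.mp hcon)
    have h2 : z * p = p * z := mul_comm _ _
    omega
  obtain ⟨D, hD⟩ : ∃ D, M.prod = p + D := ⟨M.prod - p, by omega⟩
  have hz : z * (M.prod - p) = T M + p - 1 := by
    rw [hD, show p + D - p = D by omega]
    rw [hD, mul_add, mul_comm z p] at heq
    omega
  have hMtwo : ∀ x ∈ M, 2 ≤ x := fun x hx => (Multiset.mem_filter.mp hx).2
  refine ⟨M, ⟨hMtwo, hlt, prod_lt_aux M hMtwo p z hp2 hlt hz, ?_⟩, ?_⟩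
  · rw [hD, show p + D - p = D by omega]
    rw [hD, show p + D - p = D by omega] at hz
    have : p + D + T M - 1 = D + (T M + p - 1) := by omega
    rw [this, ← hz]
    exact Dvd.intro_left (1 + z) (by ring)
  · unfold Psi
    have hzq : (T M + p - 1) / (M.prod - p) = z := by
      rw [← hz]
      exact Nat.mul_div_cancel _ (by omega)
    rw [hzq]
    congr 1
    have := eq_filter_add r hrpos
    rw [hrc] at this
    exact this

theorem main (ε : ℝ) (hε : 0 < ε) (N : ℕ)
    (H : ∀ n : ℕ, N ≤ n → (n:ℝ)^ε < ((Sol n).ncard : ℝ)) : False := by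
  classical
  obtain ⟨C, hC1, hC⟩ := Pool.H3.Lib.card_divisors_le (ε/2) (by positivity)
  obtain ⟨B, hBpos, hB⟩ := Pool.H3.Lib.multiset_sum_bound (1 + ε/2) (by linarith)
  set A : ℝ := (4:ℝ)^(1+ε) * C * (2:ℝ)^(ε/2) with hA
  obtain ⟨P, hP, hPsum⟩ := Pool.H3.TK.exists_primes N (A * B + 1)
  have hpp : ∀ p ∈ P, p.Prime := fun p hp => (hP p hp).1
  have hfin : ∀ p ∈ P, (Sol p).Finite := by
    intro p hp
    apply Set.finite_of_ncard_ne_zero
    intro h0
    have := H p (hP p hp).2
    rw [h0] at this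
    have h1 : 0 ≤ (p:ℝ)^ε := by positivity
    simp at this
    linarith
  -- choice function
  have hch : ∀ p ∈ P, ∃ F : Finset (Multiset ℕ), (∀ M ∈ F, R p M) ∧ F.card = (Sol p).ncard := by
    intro p hp
    choose! c hc1 hc2 using (fun s (hs : s ∈ Sol p) => sol_spec p (hpp p hp) s hs)
    refine ⟨(hfin p hp).toFinset.image c, ?_, ?_⟩
    · intro M hM
      obtain ⟨s, hs, rfl⟩ := Finset.mem_image.mp hM
      exact hc1 s ((hfin p hp).mem_toFinset.mp hs)
    · rw [Finset.card_image_of_injOn, Set.ncard_eq_toFinset_card _ (hfin p hp)]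
      intro s hs s' hs' hss
      have h1 := (hfin p hp).mem_toFinset.mp hs
      have h2 := (hfin p hp).mem_toFinset.mp hs'
      rw [hc2 s h1, hc2 s' h2, hss]
  choose! F hF1 hF2 using hch
  set G := P.biUnion F with hG
  have hG2 : ∀ M ∈ G, ∀ x ∈ M, 2 ≤ x := by
    intro M hM
    obtain ⟨p, hp, hMp⟩ := Finset.mem_biUnion.mp hM
    exact (hF1 p hp M hMp).two_le
  -- lower bound
  have hlow : ∑ p ∈ P, (1/(p:ℝ)) ≤ ∑ p ∈ P, ((F p).card : ℝ) * (p:ℝ)^(-(1+ε)) := by
    apply Finset.sum_le_sum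
    intro p hp
    have hp0 : (0:ℝ) < p := by exact_mod_cast (hpp p hp).pos
    have h1 := H p (hP p hp).2
    rw [← hF2 p hp] at h1
    calc (1/(p:ℝ)) = (p:ℝ)^ε * (p:ℝ)^(-(1+ε)) := by
          rw [← Real.rpow_add hp0, show ε + -(1+ε) = -1 by ring, Real.rpow_neg_one, one_div]
      _ ≤ _ := mul_le_mul_of_nonneg_right h1.le (by positivity)
  have hswap : ∑ p ∈ P, ((F p).card : ℝ) * (p:ℝ)^(-(1+ε))
      = ∑ M ∈ G, ∑ p ∈ P.filter (fun p => M ∈ F p), (p:ℝ)^(-(1+ε)) := by
    have h1 : ∀ p ∈ P, ((F p).card : ℝ) * (p:ℝ)^(-(1+ε)) =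
        ∑ M ∈ G, (if M ∈ F p then (p:ℝ)^(-(1+ε)) else 0) := by
      intro p hp
      rw [← Finset.sum_filter]
      have : G.filter (fun M => M ∈ F p) = F p := by
        ext M
        simp only [Finset.mem_filter, hG, Finset.mem_biUnion]
        constructor
        · rintro ⟨_, h⟩; exact h
        · intro h; exact ⟨⟨p, hp, h⟩, h⟩
      rw [this]; simp
    rw [Finset.sum_congr rfl h1, Finset.sum_comm]
    apply Finset.sum_congr rfl
    intro M _
    rw [Finset.sum_filter]
  have hup : ∑ M ∈ G, ∑ p ∈ P.filter (fun p => M ∈ F p), (p:ℝ)^(-(1+ε))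
      ≤ ∑ M ∈ G, A * ((M.prod : ℕ) : ℝ)^(-(1+ε/2)) := by
    apply Finset.sum_le_sum
    intro M hM
    have hR : ∀ p ∈ P.filter (fun p => M ∈ F p), R p M := by
      intro p hp
      obtain ⟨h1, h2⟩ := Finset.mem_filter.mp hp
      exact hF1 p h1 M h2
    obtain ⟨p0, hp0, hMp0⟩ := Finset.mem_biUnion.mp hM
    have hR0 := hF1 p0 hp0 M hMp0
    have hQpos : 0 < M.prod := by have := hR0.lt_prod; omega
    have hQ : (0:ℝ) < (M.prod : ℕ) := by exact_mod_cast hQpos
    have hterm : ∀ p ∈ P.filter (fun p => M ∈ F p),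
        (p:ℝ)^(-(1+ε)) ≤ (4:ℝ)^(1+ε) * ((M.prod : ℕ) : ℝ)^(-(1+ε)) := by
      intro p hp
      have h1 := (hR p hp).prod_lt
      have h2 : ((M.prod : ℕ) : ℝ) / 4 ≤ p := by
        have : ((M.prod : ℕ) : ℝ) ≤ 4 * p := by exact_mod_cast h1.le
        linarith
      calc (p:ℝ)^(-(1+ε)) ≤ (((M.prod : ℕ) : ℝ) / 4)^(-(1+ε)) :=
            Real.rpow_le_rpow_of_nonpos (by positivity) h2 (by linarith)
        _ = _ := by
            rw [Real.div_rpow hQ.le (by norm_num), Real.rpow_neg (by norm_num : (0:ℝ) ≤ 4)]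
            rw [div_inv_eq_mul, mul_comm]
    have hcardle : ((P.filter (fun p => M ∈ F p)).card : ℝ) ≤
        C * (2 * ((M.prod : ℕ) : ℝ))^(ε/2) := by
      have hTle := T_le M (fun x hx => by have := hR0.two_le x hx; omega)
      have hm : 0 < M.prod + T M - 1 := by
        have := hR0.lt_prod
        have := (hpp p0 hp0).two_le
        omega
      have hinj : (P.filter (fun p => M ∈ F p)).card ≤ (M.prod + T M - 1).divisors.card := by
        apply Finset.card_le_card_of_injOn (fun p => M.prod - p)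
        · intro p hp
          have := (hR p hp).dvd
          simp only [Finset.mem_coe, Nat.mem_divisors]
          exact ⟨this, hm.ne'⟩
        · intro p hp p' hp' hpp'
          have h1 := (hR p hp).lt_prod
          have h2 := (hR p' hp').lt_prod
          simp only at hpp'
          omega
      calc ((P.filter (fun p => M ∈ F p)).card : ℝ) ≤ ((M.prod + T M - 1).divisors.card : ℝ) := by
            exact_mod_cast hinj
        _ ≤ C * ((M.prod + T M - 1 : ℕ) : ℝ)^(ε/2) := hC _ hm
        _ ≤ _ := by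
            apply mul_le_mul_of_nonneg_left _ (by linarith)
            apply Real.rpow_le_rpow (by positivity) _ (by positivity)
            have : M.prod + T M - 1 ≤ 2 * M.prod := by omega
            exact_mod_cast this
    calc ∑ p ∈ P.filter (fun p => M ∈ F p), (p:ℝ)^(-(1+ε))
        ≤ ∑ p ∈ P.filter (fun p => M ∈ F p), (4:ℝ)^(1+ε) * ((M.prod : ℕ) : ℝ)^(-(1+ε)) :=
          Finset.sum_le_sum hterm
      _ = ((P.filter (fun p => M ∈ F p)).card : ℝ) *
            ((4:ℝ)^(1+ε) * ((M.prod : ℕ) : ℝ)^(-(1+ε))) := by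
          rw [Finset.sum_const, nsmul_eq_mul]
      _ ≤ (C * (2 * ((M.prod : ℕ) : ℝ))^(ε/2)) * ((4:ℝ)^(1+ε) * ((M.prod : ℕ) : ℝ)^(-(1+ε))) :=
          mul_le_mul_of_nonneg_right hcardle (by positivity)
      _ = A * ((M.prod : ℕ) : ℝ)^(-(1+ε/2)) := by
          rw [Real.mul_rpow (by norm_num) hQ.le, hA,
            show -(1+ε/2) = ε/2 + -(1+ε) by ring, Real.rpow_add hQ]
          ring
  have hfinal : ∑ M ∈ G, A * ((M.prod : ℕ) : ℝ)^(-(1+ε/2)) ≤ A * B := by
    rw [← Finset.mul_sum]
    exact mul_le_mul_of_nonneg_left (hB G hG2) (by positivity)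
  linarith

end Pool.H3.ProdSum
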