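import Mathlib
import Pool.Agent.H3.ProdSum.Main

/-! # Monotone tuples versus multisets (for `MP_db34dc_nt`) -/

namespace Pool.H3.ProdSum

lemma map_eq_ofFn {n : ℕ} (z : Fin n → ℕ) :
    Multiset.map z Finset.univ.val = (List.ofFn z : Multiset ℕ) := by
  rw [List.ofFn_eq_map, ← Multiset.map_coe]
  rfl

/-- The map from monotone tuples to multisets is injective. -/
lemma tuple_inj {n : ℕ} {x y : Fin n → ℕ} (hx : Monotone x) (hy : Monotone y)
    (h : Multiset.map x Finset.univ.val = Multiset.map y Finset.univ.val) : x = y := by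
  rw [map_eq_ofFn, map_eq_ofFn] at h
  exact List.ofFn_injective (List.Perm.eq_of_sortedLE hx.sortedLE_ofFn hy.sortedLE_ofFn
    (Multiset.coe_eq_coe.mp h))

/-- The monotone tuples of the problem. -/
def TSol (n : ℕ) : Set (Fin n → ℕ) :=
  {x : Fin n → ℕ | Monotone x ∧ (∀ i, 0 < x i) ∧ (∏ i, x i) = n * ∑ i, x i}

lemma tuple_surj {n : ℕ} (s : Multiset ℕ) (hs : Multiset.card s = n) :
    ∃ x : Fin n → ℕ, Monotone x ∧ Multiset.map x Finset.univ.val = s := by
  subst hs
  have hlen : (s.sort (· ≤ ·)).length = Multiset.card s := Multiset.length_sort _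
  refine ⟨fun i => (s.sort (· ≤ ·)).get (i.cast hlen.symm), ?_, ?_⟩
  · intro a b hab
    exact (Multiset.pairwise_sort s (· ≤ ·)).sortedLE.monotone_get (by simpa using hab)
  · rw [map_eq_ofFn]
    have : List.ofFn (fun i : Fin (Multiset.card s) =>
        (s.sort (· ≤ ·)).get (i.cast hlen.symm)) = s.sort (· ≤ ·) := by
      apply List.ext_get
      · simp
      · intro i h1 h2
        simp
    rw [this]
    exact Multiset.sort_eq _ _

lemma ncard_TSol (n : ℕ) : (TSol n).ncard = (Sol n).ncard := by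
  have himg : (fun x : Fin n → ℕ => Multiset.map x Finset.univ.val) '' TSol n = Sol n := by
    ext s
    constructor
    · rintro ⟨x, ⟨_, h1, h2⟩, rfl⟩
      refine ⟨by simp, ?_, ?_⟩
      · intro a ha
        obtain ⟨i, _, rfl⟩ := Multiset.mem_map.mp ha
        exact h1 i
      · exact h2
    · rintro ⟨h1, h2, h3⟩
      obtain ⟨x, hx, rfl⟩ := tuple_surj s h1
      refine ⟨x, ⟨hx, ?_, ?_⟩, rfl⟩
      · intro i
        exact h2 _ (Multiset.mem_map.mpr ⟨i, Finset.mem_univ_val i, rfl⟩)
      · exact h3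
  rw [← himg, Set.InjOn.ncard_image]
  intro x hx y hy h
  exact tuple_inj hx.1 hy.1 h

end Pool.H3.ProdSum
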